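import Pool.Agent.Helper68.QC.St4

/-! Project QD part M, module CVX. -/

open Pool.Agent.Helper68.QC
open MeasureTheory Set Filter Topology Complex
open scoped ContDiff ComplexConjugate ENNReal CompactlySupported

namespace Pool.Agent.Helper62.QCM

/-- Locally square integrable functions on the plane are a.e. strongly measurable. -/
lemma aesm_of_L2 {a : ℂ → ℂ} (h : L2 univ a) : AEStronglyMeasurable a volume := by
  have h1 : ∀ n : ℕ, AEStronglyMeasurable a (volume.restrict (Metric.closedBall (0 : ℂ) n)) :=
    fun n => (h _ (subset_univ _) (isCompact_closedBall _ _)).1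
  have h2 := (aestronglyMeasurable_iUnion_iff (μ := (volume : Measure ℂ)) (f := a)
    (s := fun n : ℕ => Metric.closedBall (0 : ℂ) n)).2 h1
  rwa [Metric.iUnion_closedBall_nat, Measure.restrict_univ] at h2

/-- The Jacobian is integrable on compact sets. -/
lemma jc_int {a b : ℂ → ℂ} (ha : L2 univ a) (hb : L2 univ b) {K : Set ℂ} (hK : IsCompact K) :
    IntegrableOn (fun z => jc a b z) K volume := by
  have h1 := (ha K (subset_univ _) hK).norm.integrable_sq
  have h2 := (hb K (subset_univ _) hK).norm.integrable_sq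
  exact h1.sub h2

theorem pCVX : Pool.Agent.Helper68.QC.StCVX := by
  intro k w a b hk0 hk1 h
  have hJae : AEMeasurable (fun z => jc a b z) volume := by
    have h1 := (aesm_of_L2 h.wd.l2a).norm.aemeasurable
    have h2 := (aesm_of_L2 h.wd.l2b).norm.aemeasurable
    exact (h1.pow_const 2).sub (h2.pow_const 2)
  have hJnn : ∀ᵐ z, 0 ≤ jc a b z := by
    filter_upwards [h.le] with z hz
    have h3 : ‖b z‖ ≤ ‖a z‖ := hz.trans (mul_le_of_le_one_left (norm_nonneg _) hk1.le)
    have h4 := pow_le_pow_left₀ (norm_nonneg _) h3 2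
    unfold jc
    linarith
  have hD : AEMeasurable (fun z => ENNReal.ofReal (jc a b z)) volume := hJae.ennreal_ofReal
  set ν := Measure.map w (volume.withDensity (fun z => ENNReal.ofReal (jc a b z))) with hν
  have hfin : ∀ K : Set ℂ, IsCompact K → ν K < ⊤ := by
    intro K hK
    have hKm : MeasurableSet K := hK.isClosed.measurableSet
    have hK' : IsCompact (w ⁻¹' K) := w.isCompact_preimage.2 hK
    rw [hν, Measure.map_apply w.measurable hKm,
      withDensity_apply _ (w.measurable hKm)]
    have h5 := (jc_int h.wd.l2a h.wd.l2b hK').2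
    refine lt_of_le_of_lt ?_ h5
    refine lintegral_mono fun z => ?_
    rw [← ofReal_norm]
    exact ENNReal.ofReal_le_ofReal (Real.norm_eq_abs _ ▸ le_abs_self _)
  have : IsFiniteMeasureOnCompacts ν := ⟨fun {K} hK => hfin K hK⟩
  apply Measure.ext_of_integral_eq_on_compactlySupported
  intro f
  have hfc : Continuous (fun z => f z) := f.continuous
  have e1 : ∫ x, f x ∂ν = ∫ z, jc a b z * f (w z) := by
    rw [hν, integral_map w.measurable.aemeasurable hfc.aestronglyMeasurable]
    rw [integral_withDensity_eq_integral_toReal_smul₀ hD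
      (Eventually.of_forall fun _ => ENNReal.ofReal_lt_top)]
    apply integral_congr_ae
    filter_upwards [hJnn] with z hz
    rw [ENNReal.toReal_ofReal hz, smul_eq_mul]
  rw [e1]
  have h6 := h.cv (fun z => ((f z : ℝ) : ℂ)) (Complex.continuous_ofReal.comp hfc)
    (f.hasCompactSupport.comp_left (g := fun x : ℝ => (x : ℂ)) (by simp))
  have h7 : ∀ z, ((f (w z) : ℝ) : ℂ) * (jc a b z : ℂ) = ((jc a b z * f (w z) : ℝ) : ℂ) := by
    intro z
    push_cast
    ring
  simp only [h7] at h6
  have h8 := integral_ofReal (μ := (volume : Measure ℂ)) (𝕜 := ℂ) (f := fun z => jc a b z * f (w z))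
  have h9 := integral_ofReal (μ := (volume : Measure ℂ)) (𝕜 := ℂ) (f := fun z => f z)
  have h10 : ((∫ z, jc a b z * f (w z) : ℝ) : ℂ) = ((∫ z, f z : ℝ) : ℂ) := by
    rw [← RCLike.ofReal_eq_complex_ofReal]
    exact h8.symm.trans (h6.trans h9)
  exact_mod_cast h10

end Pool.Agent.Helper62.QCM
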