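import Pool.Agent.Helper68.QC.St6

/-! Project QD part M, module LOC: weak derivatives are local. -/

open Pool.Agent.Helper68.QC
open MeasureTheory Set Filter Topology Complex
open scoped ContDiff ComplexConjugate ENNReal Manifold

namespace Pool.Agent.Helper62.QCM

lemma int_mul {V : Set ℂ} {g ψ : ℂ → ℂ} (hg : L2 V g) (h : Tst V ψ) :
    Integrable (fun z => g z * ψ z) := by
  have h1 : MemLp g 2 (volume.restrict (tsupport ψ)) := hg _ h.sub h.cpt
  have h2 : MemLp ψ 2 (volume.restrict (tsupport ψ)) :=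
    L2.of_continuousOn h.continuous.continuousOn _ subset_rfl h.cpt
  have h3 : IntegrableOn (fun z => g z * ψ z) (tsupport ψ) := h1.integrable_mul h2
  refine (integrableOn_iff_integrable_of_support_subset ?_).1 h3
  intro z hz
  have hz' : g z * ψ z ≠ 0 := hz
  exact subset_tsupport _ (right_ne_zero_of_mul hz')

lemma dz_sum {ι : Type} (s : Finset ι) (g : ι → ℂ → ℂ) (hg : ∀ i ∈ s, Differentiable ℝ (g i))
    (z : ℂ) : dz (fun x => ∑ i ∈ s, g i x) z = ∑ i ∈ s, dz (g i) z ∧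
      dzb (fun x => ∑ i ∈ s, g i x) z = ∑ i ∈ s, dzb (g i) z := by
  unfold dz dzb
  rw [fderiv_fun_sum (fun i hi => hg i hi z)]
  simp only [sum_apply, Finset.mul_sum, ← Finset.sum_sub_distrib, ← Finset.sum_add_distrib,
    Finset.sum_div]
  exact ⟨trivial, trivial⟩

/-- decomposition of a test function -/
lemma decomp {U : Set ℂ} {φ : ℂ → ℂ} (hφ : Tst U φ) {ι : Type} [Fintype ι] (V : ι → Set ℂ)
    (hV : ∀ i, IsOpen (V i)) (hc : tsupport φ ⊆ ⋃ i, V i) :
    ∃ ψ : ι → ℂ → ℂ, (∀ i, Tst (V i) (ψ i)) ∧ φ = fun z => ∑ i, ψ i z := by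
  obtain ⟨ρ, hρ⟩ := SmoothPartitionOfUnity.exists_isSubordinate (I := 𝓘(ℝ, ℂ)) (M := ℂ)
    (isClosed_tsupport φ) V hV hc
  refine ⟨fun i z => ((ρ i z : ℝ) : ℂ) * φ z, fun i => ?_, ?_⟩
  · have hsm : ContDiff ℝ ∞ (fun z => ((ρ i z : ℝ) : ℂ)) := by
      have h1 : ContDiff ℝ ∞ (fun z => ρ i z) := (ρ i).contMDiff.contDiff
      exact Complex.ofRealCLM.contDiff.comp h1
    have h2 := hφ.mul_left hsm
    refine ⟨h2.smooth, h2.cpt, ?_⟩
    refine (closure_mono ?_).trans (hρ i)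
    intro z hz
    have hz' : ((ρ i z : ℝ) : ℂ) * φ z ≠ 0 := hz
    have h3 := left_ne_zero_of_mul hz'
    exact fun h4 => h3 (by rw [h4]; simp)
  · funext z
    rw [← Finset.sum_mul]
    by_cases hz : z ∈ tsupport φ
    · have h1 : ∑ᶠ i, ρ i z = 1 := ρ.sum_eq_one hz
      rw [finsum_eq_sum_of_fintype] at h1
      have h2 : ∑ i, ((ρ i z : ℝ) : ℂ) = 1 := by
        exact_mod_cast congrArg (fun x : ℝ => (x : ℂ)) h1
      rw [h2, one_mul]
    · rw [image_eq_zero_of_notMem_tsupport hz, mul_zero]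

lemma L2_loc {U : Set ℂ} {a : ℂ → ℂ} (h : ∀ z ∈ U, ∃ V, IsOpen V ∧ z ∈ V ∧ L2 V a) : L2 U a := by
  intro K hKU hK
  refine hK.induction_on (p := fun s => MemLp a 2 (volume.restrict s)) ?_ ?_ ?_ ?_
  · simp
  · intro s t hst ht
    exact ht.mono_measure (Measure.restrict_mono_set _ hst)
  · intro s t hs ht
    have h1 : MemLp a 2 (volume.restrict s + volume.restrict t) := by
      refine ⟨hs.1.add_measure ht.1, ?_⟩
      have h2 := hs.2
      have h3 := ht.2
      rw [eLpNorm_lt_top_iff_lintegral_rpow_enorm_lt_top (by simp) (by simp)] at h2 h3 ⊢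
      rw [lintegral_add_measure]
      exact ENNReal.add_lt_top.2 ⟨h2, h3⟩
    exact h1.mono_measure (Measure.restrict_union_le _ _)
  · intro x hx
    obtain ⟨V, hV, hxV, hL⟩ := h x (hKU hx)
    obtain ⟨K', hK', hK'V⟩ := (compact_basis_nhds x).mem_iff.1 (hV.mem_nhds hxV)
    exact ⟨K', mem_nhdsWithin_of_mem_nhds hK'.1, hL K' hK'V hK'.2⟩

theorem pLOC : Pool.Agent.Helper68.QC.StLOC := by
  intro U f a b hU h
  choose! V hVo hzV hVU hWD using h
  have hcont : ContinuousOn f U := fun z hz =>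
    (((hWD z hz).cont z (hzV z hz)).continuousAt ((hVo z hz).mem_nhds (hzV z hz))).continuousWithinAt
  have hla : L2 U a := L2_loc fun z hz => ⟨V z, hVo z hz, hzV z hz, (hWD z hz).l2a⟩
  have hlb : L2 U b := L2_loc fun z hz => ⟨V z, hVo z hz, hzV z hz, (hWD z hz).l2b⟩
  have hlf : L2 U f := L2.of_continuousOn hcont
  have key : ∀ φ, Tst U φ → ∃ (t : Finset ℂ) (ψ : t → ℂ → ℂ), (∀ i : t, (i : ℂ) ∈ U) ∧
      (∀ i : t, Tst (V i) (ψ i)) ∧ φ = fun z => ∑ i, ψ i z := by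
    intro φ hφ
    obtain ⟨t, ht, hcov⟩ := hφ.cpt.elim_nhds_subcover (fun z => V z)
      (fun z hz => (hVo z (hφ.sub hz)).mem_nhds (hzV z (hφ.sub hz)))
    have hc : tsupport φ ⊆ ⋃ i : t, V i := by
      intro z hz
      obtain ⟨i, hi, hzi⟩ := mem_iUnion₂.1 (hcov hz)
      exact mem_iUnion.2 ⟨⟨i, hi⟩, hzi⟩
    obtain ⟨ψ, h1, h2⟩ := decomp hφ (fun i : t => V i)
      (fun i => hVo _ (hφ.sub (ht i i.2))) hc
    exact ⟨t, ψ, fun i => hφ.sub (ht i.1 i.2), h1, h2⟩
  refine ⟨hcont, hla, hlb, fun φ hφ => ?_, fun φ hφ => ?_⟩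
  · obtain ⟨t, ψ, hiU, hψ, hs⟩ := key φ hφ
    have hψU : ∀ i, Tst U (ψ i) := fun i => (hψ i).mono (hVU _ (hiU i))
    have e1 : (fun z => f z * dz φ z) = fun z => ∑ i, f z * dz (ψ i) z := by
      funext z
      rw [hs, (dz_sum Finset.univ ψ (fun i _ => (hψ i).differentiable) z).1, Finset.mul_sum]
    have e2 : (fun z => a z * φ z) = fun z => ∑ i, a z * ψ i z := by
      funext z
      rw [hs, Finset.mul_sum]
    rw [e1, e2, integral_finsetSum _ (fun i _ => int_mul hlf (hψU i).hdz),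
      integral_finsetSum _ (fun i _ => int_mul hla (hψU i)), ← Finset.sum_neg_distrib]
    exact Finset.sum_congr rfl fun i _ => (hWD _ (hiU i)).dz _ (hψ i)
  · obtain ⟨t, ψ, hiU, hψ, hs⟩ := key φ hφ
    have hψU : ∀ i, Tst U (ψ i) := fun i => (hψ i).mono (hVU _ (hiU i))
    have e1 : (fun z => f z * dzb φ z) = fun z => ∑ i, f z * dzb (ψ i) z := by
      funext z
      rw [hs, (dz_sum Finset.univ ψ (fun i _ => (hψ i).differentiable) z).2, Finset.mul_sum]
    have e2 : (fun z => b z * φ z) = fun z => ∑ i, b z * ψ i z := by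
      funext z
      rw [hs, Finset.mul_sum]
    rw [e1, e2, integral_finsetSum _ (fun i _ => int_mul hlf (hψU i).hdzb),
      integral_finsetSum _ (fun i _ => int_mul hlb (hψU i)), ← Finset.sum_neg_distrib]
    exact Finset.sum_congr rfl fun i _ => (hWD _ (hiU i)).dzb _ (hψ i)

end Pool.Agent.Helper62.QCM
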